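import Pool.Agent.TreeProfile.Small

namespace Pool.Agent.TreeProfile

open SimpleGraph Finset

/-- The permutations of the vertices that are automorphisms. -/
def autSet (H : SimpleGraph (Fin 5)) [DecidableRel H.Adj] : Finset (Equiv.Perm (Fin 5)) :=
  Finset.univ.filter fun σ => ∀ a b, H.Adj (σ a) (σ b) ↔ H.Adj a b

theorem toSubgraph_adj {V : Type*} {G : SimpleGraph V} {H : SimpleGraph (Fin 5)} (f : Copy H G)
    (x y : V) : f.toSubgraph.Adj x y ↔ ∃ a b, H.Adj a b ∧ f a = x ∧ f b = y := by
  simp [Copy.toSubgraph, Subgraph.map_adj, Relation.Map]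

theorem toSubgraph_verts {V : Type*} {G : SimpleGraph V} {H : SimpleGraph (Fin 5)} (f : Copy H G)
    (x : V) : x ∈ f.toSubgraph.verts ↔ ∃ a, f a = x := by
  simp [Copy.toSubgraph]

theorem toSubgraph_eq_iff {V : Type*} {G : SimpleGraph V} {H : SimpleGraph (Fin 5)}
    [DecidableRel H.Adj] (f f0 : Copy H G) : f.toSubgraph = f0.toSubgraph ↔
    ∃ σ ∈ autSet H, ∀ a, f a = f0 (σ a) := by
  constructor
  · intro h
    have h1 : ∀ a, ∃ b, f0 b = f a := by
      intro a
      have : f a ∈ f.toSubgraph.verts := (toSubgraph_verts f _).mpr ⟨a, rfl⟩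
      rw [h] at this
      exact (toSubgraph_verts f0 _).mp this
    choose s hs using h1
    have sinj : Function.Injective s := by
      intro a b hab
      apply f.injective
      show f a = f b
      rw [← hs a, hab, hs b]
    have sbij : Function.Bijective s := Finite.injective_iff_bijective.mp sinj
    refine ⟨Equiv.ofBijective s sbij, ?_, fun a => (hs a).symm⟩
    unfold autSet
    rw [Finset.mem_filter]
    refine ⟨Finset.mem_univ _, fun a b => ?_⟩
    simp only [Equiv.ofBijective_apply]
    constructor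
    · intro hab
      have : f0.toSubgraph.Adj (f a) (f b) := by
        rw [toSubgraph_adj]; exact ⟨s a, s b, hab, hs a, hs b⟩
      rw [← h, toSubgraph_adj] at this
      obtain ⟨a', b', hab', ha, hb⟩ := this
      rw [← f.injective ha, ← f.injective hb]; exact hab'
    · intro hab
      have : f.toSubgraph.Adj (f a) (f b) := by
        rw [toSubgraph_adj]; exact ⟨a, b, hab, rfl, rfl⟩
      rw [h, toSubgraph_adj] at this
      obtain ⟨a', b', hab', ha, hb⟩ := this
      have ea : a' = s a := f0.injective (ha.trans (hs a).symm)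
      have eb : b' = s b := f0.injective (hb.trans (hs b).symm)
      rw [← ea, ← eb]; exact hab'
  · rintro ⟨σ, hσ, h⟩
    unfold autSet at hσ
    rw [Finset.mem_filter] at hσ
    ext x y
    · rw [toSubgraph_verts, toSubgraph_verts]
      constructor
      · rintro ⟨a, ha⟩; exact ⟨σ a, by rw [← h, ha]⟩
      · rintro ⟨a, ha⟩; exact ⟨σ.symm a, by rw [h, Equiv.apply_symm_apply, ha]⟩
    · rw [toSubgraph_adj, toSubgraph_adj]
      constructor
      · rintro ⟨a, b, hab, ha, hb⟩
        exact ⟨σ a, σ b, (hσ.2 a b).mpr hab, by rw [← h, ha], by rw [← h, hb]⟩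
      · rintro ⟨a, b, hab, ha, hb⟩
        refine ⟨σ.symm a, σ.symm b, ?_, by rw [h, Equiv.apply_symm_apply, ha],
          by rw [h, Equiv.apply_symm_apply, hb]⟩
        rw [← hσ.2, Equiv.apply_symm_apply, Equiv.apply_symm_apply]
        exact hab

def autCopy (H : SimpleGraph (Fin 5)) [DecidableRel H.Adj] (σ : Equiv.Perm (Fin 5))
    (hσ : σ ∈ autSet H) : Copy H H :=
  ⟨⟨σ, fun {a b} hab => ((Finset.mem_filter.mp hσ).2 a b).mpr hab⟩, σ.injective⟩

theorem labelled_eq {V : Type*} [Fintype V] (G : SimpleGraph V) (H : SimpleGraph (Fin 5))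
    [DecidableRel H.Adj] : Nat.card (Copy H G) = (autSet H).card * G.copyCount H := by
  classical
  rw [copyCount_eq_card_image_copyToSubgraph, Nat.card_eq_fintype_card, ← Finset.card_univ,
    Finset.card_eq_sum_card_image (fun f : Copy H G => f.toSubgraph) Finset.univ, mul_comm,
    ← smul_eq_mul]
  have : ∀ b ∈ Finset.univ.image (fun f : Copy H G => f.toSubgraph),
      (Finset.univ.filter (fun f : Copy H G => f.toSubgraph = b)).card = (autSet H).card := by
    intro b hb
    rw [Finset.mem_image] at hb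
    obtain ⟨f0, -, rfl⟩ := hb
    symm
    apply Finset.card_bij (fun σ hσ => f0.comp (autCopy H σ hσ))
    · intro σ hσ
      rw [Finset.mem_filter]
      refine ⟨Finset.mem_univ _, ?_⟩
      rw [toSubgraph_eq_iff]
      exact ⟨σ, hσ, fun a => rfl⟩
    · intro σ hσ τ hτ h
      ext a
      have : f0 (σ a) = f0 (τ a) := by
        have := DFunLike.congr_fun h a
        exact this
      rw [f0.injective this]
    · intro f hf
      rw [Finset.mem_filter, toSubgraph_eq_iff] at hf
      obtain ⟨-, σ, hσ, h⟩ := hf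
      refine ⟨σ, hσ, ?_⟩
      ext a
      exact (h a).symm
  rw [Finset.sum_congr rfl this, Finset.sum_const]

/-- The path on five vertices. -/
def path5 : SimpleGraph (Fin 5) where
  Adj i j := i.val + 1 = j.val ∨ j.val + 1 = i.val
  symm := ⟨fun _ _ h => h.symm⟩
  loopless := ⟨fun _ h => by omega⟩

/-- The star `K_{1,4}` with centre `0`. -/
def star5 : SimpleGraph (Fin 5) where
  Adj i j := (i = 0 ∧ j ≠ 0) ∨ (j = 0 ∧ i ≠ 0)
  symm := ⟨fun _ _ h => h.symm⟩
  loopless := ⟨fun _ h => by rcases h with h | h <;> exact h.2 h.1⟩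

/-- The tree with edges `01, 02, 03, 34`. -/
def ytree : SimpleGraph (Fin 5) where
  Adj i j := (i = 0 ∧ (j = 1 ∨ j = 2 ∨ j = 3)) ∨ (i = 3 ∧ j = 4) ∨
    (j = 0 ∧ (i = 1 ∨ i = 2 ∨ i = 3)) ∨ (j = 3 ∧ i = 4)
  symm := ⟨fun _ _ h => by tauto⟩
  loopless := ⟨fun i h => by revert h; revert i; decide⟩

instance : DecidableRel path5.Adj := fun _ _ => by unfold path5; infer_instance
instance : DecidableRel star5.Adj := fun _ _ => by unfold star5; infer_instance
instance : DecidableRel ytree.Adj := fun _ _ => by unfold ytree; infer_instance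

theorem aut_path : (autSet path5).card = 2 := by decide +kernel
theorem aut_star : (autSet star5).card = 24 := by decide +kernel
theorem aut_y : (autSet ytree).card = 2 := by decide +kernel

end Pool.Agent.TreeProfile
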