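import Pool.Agent.TreeProfile.Count

namespace Pool.Agent.TreeProfile

open SimpleGraph Finset

variable {V : Type*} [Fintype V] [DecidableEq V] (T : SimpleGraph V) [DecidableRel T.Adj]

def starCopy (v : V) (φ : Fin 4 ↪ {u // u ∈ T.neighborFinset v}) : Copy star5 T where
  toHom :=
    { toFun := Fin.cons v (fun i => (φ i : V))
      map_rel' := by
        intro i j hij
        have hadj : ∀ k, T.Adj v (φ k) := fun k => (mem_neighborFinset _ _ _).mp (φ k).2
        rcases hij with ⟨rfl, h⟩ | ⟨rfl, h⟩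
        · obtain ⟨k, rfl⟩ := Fin.exists_succ_eq.mpr h
          rw [Fin.cons_zero, Fin.cons_succ]
          exact hadj k
        · obtain ⟨k, rfl⟩ := Fin.exists_succ_eq.mpr h
          rw [Fin.cons_zero, Fin.cons_succ]
          exact (hadj k).symm }
  injective' := by
    show Function.Injective (Fin.cons v (fun i => (φ i : V)) : Fin 5 → V)
    rw [Fin.cons_injective_iff]
    constructor
    · rintro ⟨k, hk⟩
      have := (mem_neighborFinset _ _ _).mp (φ k).2
      have hk' : (φ k : V) = v := hk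
      rw [hk'] at this
      exact T.loopless.irrefl v this
    · intro a b hab
      exact φ.injective (Subtype.ext hab)

theorem star_count : ∑ v, (T.degree v).descFactorial 4 ≤ Nat.card (Copy star5 T) := by
  classical
  have h : ∑ v, (T.degree v).descFactorial 4 =
      Fintype.card (Σ v : V, (Fin 4 ↪ {u // u ∈ T.neighborFinset v})) := by
    rw [Fintype.card_sigma]
    apply Finset.sum_congr rfl
    intro v _
    rw [Fintype.card_embedding_eq, Fintype.card_fin, Fintype.card_coe,
      card_neighborFinset_eq_degree]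
  rw [h, Nat.card_eq_fintype_card]
  apply Fintype.card_le_of_injective (fun p => starCopy T p.1 p.2)
  rintro ⟨v, φ⟩ ⟨v', φ'⟩ h
  have h0 : v = v' := DFunLike.congr_fun h 0
  subst h0
  congr 1
  ext k
  have := DFunLike.congr_fun h k.succ
  exact this

theorem tri (hT : T.IsAcyclic) {u v w : V} (h1 : T.Adj v u) (h2 : T.Adj u w) (h3 : T.Adj v w) :
    False := by
  have hvu : v ≠ u := h1.ne
  have huw : u ≠ w := h2.ne
  have hvw : v ≠ w := h3.ne
  let p : T.Path v w := ⟨Walk.cons h3 Walk.nil, by simp [hvw]⟩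
  let q : T.Path v w := ⟨Walk.cons h1 (Walk.cons h2 Walk.nil), by simp [hvw, hvu, huw]⟩
  have := hT.path_unique p q
  have h4 := congrArg (fun r : T.Path v w => (r : T.Walk v w).length) this
  simp [p, q] at h4

theorem quad (hT : T.IsAcyclic) {u v w a : V} (h1 : T.Adj v u) (h2 : T.Adj u a) (h3 : T.Adj v w)
    (h4 : T.Adj w a) (hav : v ≠ a) : u = w := by
  let p : T.Path v a := ⟨Walk.cons h1 (Walk.cons h2 Walk.nil), by simp [hav, h1.ne, h2.ne]⟩
  let q : T.Path v a := ⟨Walk.cons h3 (Walk.cons h4 Walk.nil), by simp [hav, h3.ne, h4.ne]⟩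
  have := hT.path_unique p q
  have h5 := congrArg (fun r : T.Path v a => (r : T.Walk v a).support) this
  simp [p, q] at h5
  exact h5

theorem path_count (hT : T.IsAcyclic) :
    ∑ v, ∑ q ∈ (T.neighborFinset v).offDiag, (T.degree q.1 - 1) * (T.degree q.2 - 1) ≤
      Nat.card (Copy path5 T) := by
  classical
  obtain ⟨S, hS⟩ : ∃ S : Finset (Σ _ : V, Σ _ : V × V, V × V), S = (univ : Finset V).sigma
    (fun v => ((T.neighborFinset v).offDiag).sigma
      (fun q => ((T.neighborFinset q.1).erase v) ×ˢ ((T.neighborFinset q.2).erase v))) := ⟨_, rfl⟩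
  have hc : S.card = ∑ v, ∑ q ∈ (T.neighborFinset v).offDiag,
      (T.degree q.1 - 1) * (T.degree q.2 - 1) := by
    rw [hS, Finset.card_sigma]
    apply Finset.sum_congr rfl
    intro v _
    rw [Finset.card_sigma]
    apply Finset.sum_congr rfl
    intro q hq
    rw [Finset.mem_offDiag, mem_neighborFinset, mem_neighborFinset] at hq
    rw [Finset.card_product, Finset.card_erase_of_mem, Finset.card_erase_of_mem,
      card_neighborFinset_eq_degree, card_neighborFinset_eq_degree]
    · rw [mem_neighborFinset]; exact hq.2.1.symm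
    · rw [mem_neighborFinset]; exact hq.1.symm
  rw [← hc, Nat.card_eq_fintype_card, ← Finset.card_univ]
  apply Finset.card_le_card_of_surjOn (fun f : Copy path5 T =>
    (⟨f 2, ⟨(f 1, f 3), (f 0, f 4)⟩⟩ : Σ _ : V, Σ _ : V × V, V × V))
  rintro ⟨v, ⟨u, w⟩, ⟨a, b⟩⟩ hx
  rw [Finset.mem_coe, hS, Finset.mem_sigma, Finset.mem_sigma, Finset.mem_product,
    Finset.mem_offDiag, Finset.mem_erase, Finset.mem_erase, mem_neighborFinset,
    mem_neighborFinset, mem_neighborFinset, mem_neighborFinset] at hx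
  obtain ⟨-, ⟨hvu, hvw, huw⟩, ⟨hav, hua⟩, ⟨hbv, hwb⟩⟩ := hx
  simp only at hvu hvw huw hav hua hbv hwb
  have haw : a ≠ w := by
    rintro rfl; exact tri T hT hvu hua hvw
  have hbu : b ≠ u := by
    rintro rfl; exact tri T hT hvw hwb hvu
  have hab : a ≠ b := by
    rintro rfl; exact huw (quad T hT hvu hua hvw hwb hav.symm)
  have hnd : [a, u, v, w, b].Nodup := by
    simp only [List.nodup_cons, List.mem_cons, List.not_mem_nil, or_false, not_or,
      not_false_eq_true, List.nodup_nil, and_true]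
    exact ⟨⟨hua.ne.symm, hav, haw, hab⟩, ⟨hvu.ne.symm, huw, hbu.symm⟩, ⟨hvw.ne, hbv.symm⟩,
      hwb.ne⟩
  refine ⟨⟨⟨![a, u, v, w, b], ?_⟩, ?_⟩, Finset.mem_coe.mpr (Finset.mem_univ _), rfl⟩
  · intro i j hij
    fin_cases i <;> fin_cases j <;> first
      | exact hua.symm | exact hua | exact hvu | exact hvu.symm | exact hvw | exact hvw.symm
      | exact hwb | exact hwb.symm | (exfalso; revert hij; decide)
  · show Function.Injective ![a, u, v, w, b]
    rw [← List.nodup_ofFn]
    exact hnd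

theorem y_count : Nat.card (Copy ytree T) ≤
    ∑ v, ∑ b ∈ T.neighborFinset v, ((T.degree v - 1) * (T.degree v - 2)) * (T.degree b - 1) := by
  classical
  obtain ⟨S, hS⟩ : ∃ S : Finset (Σ _ : V, Σ _ : V, (V × V) × V), S = (univ : Finset V).sigma
    (fun v => (T.neighborFinset v).sigma
      (fun b => (((T.neighborFinset v).erase b).offDiag) ×ˢ ((T.neighborFinset b).erase v))) :=
      ⟨_, rfl⟩
  have hc : S.card = ∑ v, ∑ b ∈ T.neighborFinset v,
      ((T.degree v - 1) * (T.degree v - 2)) * (T.degree b - 1) := by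
    rw [hS, Finset.card_sigma]
    apply Finset.sum_congr rfl
    intro v _
    rw [Finset.card_sigma]
    apply Finset.sum_congr rfl
    intro b hb
    have hb' := hb
    rw [mem_neighborFinset] at hb'
    rw [Finset.card_product, Finset.offDiag_card, Finset.card_erase_of_mem hb,
      Finset.card_erase_of_mem, card_neighborFinset_eq_degree, card_neighborFinset_eq_degree]
    · congr 1
      rcases Nat.eq_zero_or_pos (T.degree v - 1) with h | h
      · rw [h]; simp
      · obtain ⟨m, hm⟩ : ∃ m, T.degree v = m + 2 := ⟨T.degree v - 2, by omega⟩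
        rw [hm]
        simp only [Nat.add_succ_sub_one, Nat.add_sub_cancel]
        rw [Nat.sub_eq_iff_eq_add (by nlinarith)]
        ring
    · rw [mem_neighborFinset]; exact hb'.symm
  rw [← hc, Nat.card_eq_fintype_card, ← Finset.card_univ]
  apply Finset.card_le_card_of_injOn (fun f : Copy ytree T =>
    (⟨f 0, ⟨f 3, ((f 1, f 2), f 4)⟩⟩ : Σ _ : V, Σ _ : V, (V × V) × V))
  · intro f _
    have e01 : T.Adj (f 0) (f 1) := f.toHom.map_adj (by decide)
    have e02 : T.Adj (f 0) (f 2) := f.toHom.map_adj (by decide)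
    have e03 : T.Adj (f 0) (f 3) := f.toHom.map_adj (by decide)
    have e34 : T.Adj (f 3) (f 4) := f.toHom.map_adj (by decide)
    have n : ∀ i j : Fin 5, i ≠ j → f i ≠ f j := fun i j hij h => hij (f.injective h)
    rw [Finset.mem_coe, hS, Finset.mem_sigma, Finset.mem_sigma, Finset.mem_product,
      Finset.mem_offDiag, Finset.mem_erase, Finset.mem_erase, Finset.mem_erase]
    simp only [mem_neighborFinset]
    exact ⟨Finset.mem_univ _, e03, ⟨⟨n 1 3 (by decide), e01⟩, ⟨n 2 3 (by decide), e02⟩,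
      n 1 2 (by decide)⟩, ⟨n 4 0 (by decide), e34⟩⟩
  · intro f _ f' _ h
    simp only [Sigma.mk.injEq, heq_eq_eq, Prod.mk.injEq] at h
    obtain ⟨h0, h3, ⟨h1, h2⟩, h4⟩ := h
    ext i
    fin_cases i
    · exact h0
    · exact h1
    · exact h2
    · exact h3
    · exact h4

theorem offDiag_sum (N : Finset V) (f : V → ℤ) :
    ∑ q ∈ N.offDiag, f q.1 * f q.2 = (∑ i ∈ N, f i) ^ 2 - ∑ i ∈ N, f i ^ 2 := by
  have h1 : ∑ q ∈ N ×ˢ N, f q.1 * f q.2 = (∑ i ∈ N, f i) ^ 2 := by
    rw [sq, Finset.sum_mul_sum, Finset.sum_product]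
  have h2 : ∑ q ∈ N.diag, f q.1 * f q.2 = ∑ i ∈ N, f i ^ 2 := by
    rw [Finset.sum_diag]
    apply Finset.sum_congr rfl
    intro i _
    rw [sq]
  rw [← Finset.diag_union_offDiag, Finset.sum_union (Finset.disjoint_diag_offDiag _), h2] at h1
  linarith

theorem g_sum (x : V → ℕ) : ∑ v, ∑ u ∈ T.neighborFinset v, g (x v) (x u) = 0 := by
  have h1 : ∀ v, ∑ u ∈ T.neighborFinset v, g (x v) (x u) =
      ∑ u, if T.Adj v u then g (x v) (x u) else 0 := by
    intro v
    rw [← Finset.sum_filter]
    apply Finset.sum_congr _ (fun _ _ => rfl)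
    ext u
    simp
  have h2 : ∑ v, ∑ u ∈ T.neighborFinset v, g (x v) (x u) =
      - ∑ v, ∑ u ∈ T.neighborFinset v, g (x v) (x u) := by
    nth_rewrite 2 [Finset.sum_congr rfl (fun v _ => h1 v)]
    rw [Finset.sum_comm, ← Finset.sum_neg_distrib]
    rw [Finset.sum_congr rfl (fun v _ => h1 v)]
    apply Finset.sum_congr rfl
    intro v _
    rw [← Finset.sum_neg_distrib]
    apply Finset.sum_congr rfl
    intro u _
    by_cases h : T.Adj v u
    · rw [if_pos h, if_pos h.symm, g_anti]
    · rw [if_neg h, if_neg (fun h' => h h'.symm), neg_zero]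
  linarith

theorem main (hT : T.IsTree) (hn : 2 ≤ Fintype.card V) :
    0 ≤ (∑ v, 3 * cc (T.degree v - 1) * (cc (T.degree v - 1) - 1)) +
      (∑ v, ((∑ u ∈ T.neighborFinset v, ((T.degree u - 1 : ℕ) : ℤ)) ^ 2 -
        ∑ u ∈ T.neighborFinset v, ((T.degree u - 1 : ℕ) : ℤ) ^ 2)) -
      (∑ v, 2 * cc (T.degree v - 1) * ∑ u ∈ T.neighborFinset v, ((T.degree u - 1 : ℕ) : ℤ)) +
      12 := by
  have hnt : Nontrivial V := Fintype.one_lt_card_iff_nontrivial.mp (by omega)
  have hdeg : ∀ v, 0 < T.degree v := fun v => hT.connected.preconnected.degree_pos_of_nontrivial v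
  have hloc : ∀ v, 0 ≤ E2 (T.degree v - 1) (T.neighborFinset v) (fun u => T.degree u - 1) := by
    intro v
    apply local_nonneg
    rw [card_neighborFinset_eq_degree]
    have := hdeg v
    omega
  have hsum : 0 ≤ ∑ v, E2 (T.degree v - 1) (T.neighborFinset v) (fun u => T.degree u - 1) :=
    Finset.sum_nonneg (fun v _ => hloc v)
  unfold E2 at hsum
  rw [Finset.sum_sub_distrib, Finset.sum_add_distrib, Finset.sum_add_distrib,
    Finset.sum_sub_distrib, Finset.sum_add_distrib, ← Finset.mul_sum Finset.univ _ (2 : ℤ),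
    g_sum T (fun u => T.degree u - 1), ← Finset.mul_sum Finset.univ _ (6 : ℤ)] at hsum
  have h1 : ∑ v : V, (((T.degree v - 1 : ℕ) : ℤ) + 1) = 2 * (Fintype.card V : ℤ) - 2 := by
    have h2 : ∑ v : V, (((T.degree v - 1 : ℕ) : ℤ) + 1) = ∑ v : V, (T.degree v : ℤ) := by
      apply Finset.sum_congr rfl
      intro v _
      have := hdeg v
      omega
    rw [h2]
    have h3 := T.sum_degrees_eq_twice_card_edges
    have h4 := hT.card_edgeFinset
    have h5 : (∑ v : V, (T.degree v : ℤ)) = ((∑ v : V, T.degree v : ℕ) : ℤ) := by push_cast; rfl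
    rw [h5, h3, ← h4]
    push_cast
    ring
  rw [h1, Finset.sum_const, Finset.card_univ, nsmul_eq_mul] at hsum
  linarith

end Pool.Agent.TreeProfile
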