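import Mathlib

namespace Pool.Agent.TreeProfile

/-- `C(a,2)` as an integer. -/
def cc (a : ℕ) : ℤ := (a.choose 2 : ℕ)

theorem two_cc (a : ℕ) : 2 * cc a = (a : ℤ) * (a - 1) := by
  unfold cc
  induction a with
  | zero => simp
  | succ n ih =>
    rw [Nat.choose_succ_succ' n 1, Nat.choose_one_right]
    push_cast at ih ⊢
    linarith

/-- The amount given by the larger to the smaller vertex. -/
def tr (a p : ℕ) : ℤ :=
  if a = 0 then -3 else if a = 1 then (if p = 2 then -2 else -3)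
  else if a = 2 then (p : ℤ) - 3 else if a = 3 then (if p = 4 then 1 else 3 * (p : ℤ) - 12)
  else cc a * max ((p : ℤ) - cc a) 0

def g (a p : ℕ) : ℤ := if a < p then tr a p else if p < a then - tr p a else 0

theorem g_anti (a p : ℕ) : g a p = - g p a := by
  unfold g
  rcases lt_trichotomy a p with h | h | h
  · rw [if_pos h, if_neg (by omega), if_pos h, neg_neg]
  · rw [h]; simp
  · rw [if_neg (by omega), if_pos h, if_pos h]

/-- Twice the weight of a vertex. -/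
def E2 {ι : Type*} (a : ℕ) (N : Finset ι) (p : ι → ℕ) : ℤ :=
  3 * cc a * (cc a - 1) + ((∑ i ∈ N, (p i : ℤ)) ^ 2 - ∑ i ∈ N, (p i : ℤ) ^ 2) -
    2 * cc a * (∑ i ∈ N, (p i : ℤ)) + 2 * ∑ i ∈ N, g a (p i) + 12 - 6 * ((a : ℤ) + 1)

theorem mono {ι : Type*} (N : Finset ι) (t p : ι → ℤ) :
    (∀ i ∈ N, 0 ≤ t i) → (∀ i ∈ N, t i ≤ p i) →
    (∑ i ∈ N, t i) ^ 2 - ∑ i ∈ N, t i ^ 2 ≤ (∑ i ∈ N, p i) ^ 2 - ∑ i ∈ N, p i ^ 2 := by
  classical
  induction N using Finset.induction_on with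
  | empty => intro _ _; simp
  | insert j N hj ih =>
    intro h0 h1
    have ih' := ih (fun i hi => h0 i (Finset.mem_insert_of_mem hi))
      (fun i hi => h1 i (Finset.mem_insert_of_mem hi))
    rw [Finset.sum_insert hj, Finset.sum_insert hj, Finset.sum_insert hj, Finset.sum_insert hj]
    have e1 : 0 ≤ t j := h0 j (Finset.mem_insert_self _ _)
    have e2 : t j ≤ p j := h1 j (Finset.mem_insert_self _ _)
    have e3 : 0 ≤ ∑ i ∈ N, t i :=
      Finset.sum_nonneg (fun i hi => h0 i (Finset.mem_insert_of_mem hi))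
    have e4 : ∑ i ∈ N, t i ≤ ∑ i ∈ N, p i :=
      Finset.sum_le_sum (fun i hi => h1 i (Finset.mem_insert_of_mem hi))
    have e5 : t j * ∑ i ∈ N, t i ≤ p j * ∑ i ∈ N, p i :=
      mul_le_mul e2 e4 e3 (e1.trans e2)
    linarith [e5, ih', sq (t j + ∑ i ∈ N, t i), sq (p j + ∑ i ∈ N, p i),
      mul_add (t j + ∑ i ∈ N, t i) (t j) (∑ i ∈ N, t i),
      mul_add (p j + ∑ i ∈ N, p i) (p j) (∑ i ∈ N, p i),
      add_mul (t j) (∑ i ∈ N, t i) (t j), add_mul (t j) (∑ i ∈ N, t i) (∑ i ∈ N, t i),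
      add_mul (p j) (∑ i ∈ N, p i) (p j), add_mul (p j) (∑ i ∈ N, p i) (∑ i ∈ N, p i),
      mul_comm (t j) (∑ i ∈ N, t i), mul_comm (p j) (∑ i ∈ N, p i), sq (t j), sq (p j),
      sq (∑ i ∈ N, t i), sq (∑ i ∈ N, p i)]

theorem lemL {ι : Type*} (N : Finset ι) (hN : N.Nonempty) (t : ι → ℤ) (c : ℤ)
    (h0 : ∀ i ∈ N, 0 ≤ t i) (hc : ∀ i ∈ N, t i ≤ c) :
    0 ≤ (∑ i ∈ N, t i) ^ 2 - ∑ i ∈ N, t i ^ 2 - 2 * c * (∑ i ∈ N, t i) + 2 * c ^ 2 := by
  classical
  obtain ⟨j, hj, hmax⟩ := Finset.exists_max_image N t hN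
  rw [← Finset.insert_erase hj, Finset.sum_insert (Finset.notMem_erase _ _),
    Finset.sum_insert (Finset.notMem_erase _ _)]
  obtain ⟨r, hr⟩ : ∃ r, r = ∑ i ∈ N.erase j, t i := ⟨_, rfl⟩
  obtain ⟨q, hq⟩ : ∃ q, q = ∑ i ∈ N.erase j, t i ^ 2 := ⟨_, rfl⟩
  have h0' : ∀ i ∈ N.erase j, 0 ≤ t i := fun i hi => h0 i (Finset.mem_of_mem_erase hi)
  have q1 : q ≤ t j * r := by
    rw [hq, hr, Finset.mul_sum]
    apply Finset.sum_le_sum
    intro i hi
    have := hmax i (Finset.mem_of_mem_erase hi)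
    nlinarith [h0' i hi]
  have q2 : q ≤ r * r := by
    rw [hq]
    nth_rewrite 1 [hr]
    rw [Finset.sum_mul]
    apply Finset.sum_le_sum
    intro i hi
    have : t i ≤ r := by
      rw [hr]; exact Finset.single_le_sum h0' hi
    nlinarith [h0' i hi]
  have r0 : 0 ≤ r := by rw [hr]; exact Finset.sum_nonneg h0'
  have t0 := h0 j hj
  have tc := hc j hj
  rw [← hr, ← hq]
  generalize t j = M at *
  rcases le_or_gt r c with h | h
  · nlinarith [mul_nonneg (sub_nonneg.mpr tc) (sub_nonneg.mpr h)]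
  · rcases le_or_gt (2 * c) r with h' | h'
    · nlinarith [mul_nonneg t0 (sub_nonneg.mpr h'), sq_nonneg (r - c), sq_nonneg c]
    · nlinarith [mul_nonneg (sub_nonneg.mpr tc) (sub_nonneg.mpr h'.le),
        mul_nonneg r0 (sub_nonneg.mpr h.le)]

/-- Degrees at least six (`a ≥ 5`), given a bound `K` on the costs. -/
theorem big {ι : Type*} (a : ℕ) (N : Finset ι) (hN : N.card = a + 1) (p : ι → ℕ) (K : ℤ)
    (hK : ∀ x : ℕ, 3 - g a x + cc a * ((x : ℤ) - min (x : ℤ) (cc a)) ≤ K)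
    (hnum : 0 ≤ 3 * cc a * (cc a - 1) - 2 * cc a ^ 2 + 12 - 2 * K * ((a : ℤ) + 1)) :
    0 ≤ E2 a N p := by
  have hc0 : 0 ≤ cc a := by unfold cc; positivity
  unfold E2
  obtain ⟨t, ht⟩ : ∃ t : ι → ℤ, t = fun i => min (p i : ℤ) (cc a) := ⟨_, rfl⟩
  have t0 : ∀ i ∈ N, 0 ≤ t i := fun i _ => by rw [ht]; exact le_min (by positivity) hc0
  have t1 : ∀ i ∈ N, t i ≤ cc a := fun i _ => by rw [ht]; exact min_le_right _ _
  have t2 : ∀ i ∈ N, t i ≤ (p i : ℤ) := fun i _ => by rw [ht]; exact min_le_left _ _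
  have hne : N.Nonempty := Finset.card_pos.mp (by omega)
  have m1 := mono N t (fun i => (p i : ℤ)) t0 t2
  have m2 := lemL N hne t (cc a) t0 t1
  have m3 : ∑ i ∈ N, (3 - g a (p i) + cc a * ((p i : ℤ) - t i)) ≤ ((a : ℤ) + 1) * K := by
    have : ((a : ℤ) + 1) = (N.card : ℤ) := by rw [hN]; push_cast; ring
    rw [this, ← nsmul_eq_mul]
    apply Finset.sum_le_card_nsmul
    intro i _
    rw [ht]
    exact hK (p i)
  rw [Finset.sum_add_distrib, Finset.sum_sub_distrib, Finset.sum_const, nsmul_eq_mul,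
    ← Finset.mul_sum, Finset.sum_sub_distrib, hN] at m3
  push_cast at m3
  nlinarith

end Pool.Agent.TreeProfile
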