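import Pool.Agent.TreeProfile.Local

namespace Pool.Agent.TreeProfile

theorem E2_eq {ι : Type*} (a : ℕ) (N : Finset ι) (p : ι → ℕ) :
    E2 a N p = 3 * cc a * (cc a - 1) + ((∑ i ∈ N, (p i : ℤ)) ^ 2 - ∑ i ∈ N, (p i : ℤ) ^ 2) +
      ∑ i ∈ N, (2 * g a (p i) - 2 * cc a * (p i : ℤ)) + 12 - 6 * ((a : ℤ) + 1) := by
  unfold E2
  rw [Finset.sum_sub_distrib, ← Finset.mul_sum, ← Finset.mul_sum]
  ring

theorem capped {ι : Type*} (a : ℕ) (N : Finset ι) (p : ι → ℕ) (C : ℕ) (H : ℕ → ℤ)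
    (hH : ∀ x, 2 * g a x - 2 * cc a * (x : ℤ) = H (min x C))
    (h : 0 ≤ 3 * cc a * (cc a - 1) + ((∑ i ∈ N, ((min (p i) C : ℕ) : ℤ)) ^ 2 -
      ∑ i ∈ N, ((min (p i) C : ℕ) : ℤ) ^ 2) +
      ∑ i ∈ N, H (min (p i) C) + 12 - 6 * ((a : ℤ) + 1)) : 0 ≤ E2 a N p := by
  rw [E2_eq]
  have h1 : ∑ i ∈ N, (2 * g a (p i) - 2 * cc a * (p i : ℤ)) = ∑ i ∈ N, H (min (p i) C) :=
    Finset.sum_congr rfl (fun i _ => hH (p i))
  rw [h1]
  have h2 := mono N (fun i => ((min (p i) C : ℕ) : ℤ)) (fun i => (p i : ℤ))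
    (fun i _ => by positivity) (fun i _ => by exact_mod_cast min_le_left _ _)
  linarith

theorem cc0 : cc 0 = 0 := rfl
theorem cc1 : cc 1 = 0 := rfl
theorem cc2 : cc 2 = 1 := rfl
theorem cc3 : cc 3 = 3 := rfl
theorem cc4 : cc 4 = 6 := rfl

def H1 (x : ℕ) : ℤ := if x = 0 then 6 else if x = 1 then 0 else if x = 2 then -4 else -6
def H2 (x : ℕ) : ℤ := if x = 0 then 6 else if x = 1 then 2 else if x = 2 then -4 else -6
def H3 (x : ℕ) : ℤ := if x = 0 then 6 else if x = 1 then 0 else if x = 2 then -12 else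
  if x = 3 then -18 else if x = 4 then -22 else -24
def H4 (x : ℕ) : ℤ := if x = 0 then 6 else if x = 1 then -6 else if x = 2 then -26 else
  if x = 3 then -38 else if x = 4 then -48 else if x = 5 then -60 else -72

theorem hH1 (x : ℕ) : 2 * g 1 x - 2 * cc 1 * (x : ℤ) = H1 (min x 3) := by
  by_cases h : x < 3
  · interval_cases x <;> decide
  · rw [min_eq_right (by omega), cc1]
    unfold g tr
    rw [if_pos (by omega), if_neg (by omega), if_pos rfl, if_neg (by omega)]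
    simp [H1]

theorem hH2 (x : ℕ) : 2 * g 2 x - 2 * cc 2 * (x : ℤ) = H2 (min x 3) := by
  by_cases h : x < 3
  · interval_cases x <;> decide
  · rw [min_eq_right (by omega), cc2]
    unfold g tr
    rw [if_pos (by omega), if_neg (by omega), if_neg (by omega), if_pos rfl]
    simp only [H2]
    norm_num
    ring

theorem hH3 (x : ℕ) : 2 * g 3 x - 2 * cc 3 * (x : ℤ) = H3 (min x 5) := by
  by_cases h : x < 5
  · interval_cases x <;> decide
  · rw [min_eq_right (by omega), cc3]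
    unfold g tr
    rw [if_pos (by omega), if_neg (by omega), if_neg (by omega), if_neg (by omega), if_pos rfl,
      if_neg (by omega)]
    simp only [H3]
    norm_num
    ring

theorem hH4 (x : ℕ) : 2 * g 4 x - 2 * cc 4 * (x : ℤ) = H4 (min x 6) := by
  by_cases h : x < 6
  · interval_cases x <;> decide
  · rw [min_eq_right (by omega), cc4]
    unfold g tr
    rw [if_pos (by omega), if_neg (by omega), if_neg (by omega), if_neg (by omega),
      if_neg (by omega), cc4, max_eq_left (by omega)]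
    simp only [H4]
    norm_num
    ring

theorem dec1 : ∀ a b : Fin 4, 0 ≤ ((a.val + b.val : ℤ)) ^ 2 - ((a.val : ℤ) ^ 2 + (b.val : ℤ) ^ 2) +
    (H1 a.val + H1 b.val) := by decide

theorem dec2 : ∀ a b c : Fin 4, 0 ≤ ((a.val + b.val + c.val : ℤ)) ^ 2 -
    ((a.val : ℤ) ^ 2 + (b.val : ℤ) ^ 2 + (c.val : ℤ) ^ 2) +
    (H2 a.val + H2 b.val + H2 c.val) - 6 := by decide +kernel

theorem dec3 : ∀ a b c d : Fin 6, 0 ≤ 18 + (((a.val + b.val + c.val + d.val : ℤ)) ^ 2 -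
    ((a.val : ℤ) ^ 2 + (b.val : ℤ) ^ 2 + (c.val : ℤ) ^ 2 + (d.val : ℤ) ^ 2)) +
    (H3 a.val + H3 b.val + H3 c.val + H3 d.val) - 12 := by decide +kernel

theorem dec4 : ∀ a b c d e : Fin 7, 0 ≤ 90 + (((a.val + b.val + c.val + d.val + e.val : ℤ)) ^ 2 -
    ((a.val : ℤ) ^ 2 + (b.val : ℤ) ^ 2 + (c.val : ℤ) ^ 2 + (d.val : ℤ) ^ 2 + (e.val : ℤ) ^ 2)) +
    (H4 a.val + H4 b.val + H4 c.val + H4 d.val + H4 e.val) - 18 := by decide +kernel

theorem small0 {ι : Type*} (N : Finset ι) (hN : N.card = 0 + 1) (p : ι → ℕ) : 0 ≤ E2 0 N p := by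
  obtain ⟨i, rfl⟩ := Finset.card_eq_one.mp hN
  rw [E2_eq, cc0]
  simp only [Finset.sum_singleton]
  unfold g tr
  rcases Nat.eq_zero_or_pos (p i) with h | h
  · rw [h]; simp
  · rw [if_pos h, if_pos rfl]; norm_num

theorem small1 {ι : Type*} (N : Finset ι) (hN : N.card = 1 + 1) (p : ι → ℕ) : 0 ≤ E2 1 N p := by
  apply capped 1 N p 3 H1 hH1
  obtain ⟨e⟩ : Nonempty (Fin 2 ≃ N) := ⟨(Finset.equivFinOfCardEq hN).symm⟩
  have hs : ∀ f : ι → ℤ, ∑ i ∈ N, f i = ∑ k : Fin 2, f (e k) := by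
    intro f
    rw [← Finset.sum_coe_sort, ← Equiv.sum_comp e]
  rw [hs, hs, hs, cc1]
  simp only [Fin.sum_univ_two]
  have := dec1 ⟨min (p (e 0)) 3, by omega⟩ ⟨min (p (e 1)) 3, by omega⟩
  simp only at this
  generalize min (p (e 0)) 3 = t0 at *
  generalize min (p (e 1)) 3 = t1 at *
  norm_num
  linarith

theorem small2 {ι : Type*} (N : Finset ι) (hN : N.card = 2 + 1) (p : ι → ℕ) : 0 ≤ E2 2 N p := by
  apply capped 2 N p 3 H2 hH2
  obtain ⟨e⟩ : Nonempty (Fin 3 ≃ N) := ⟨(Finset.equivFinOfCardEq hN).symm⟩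
  have hs : ∀ f : ι → ℤ, ∑ i ∈ N, f i = ∑ k : Fin 3, f (e k) := by
    intro f
    rw [← Finset.sum_coe_sort, ← Equiv.sum_comp e]
  rw [hs, hs, hs, cc2]
  simp only [Fin.sum_univ_three]
  have := dec2 ⟨min (p (e 0)) 3, by omega⟩ ⟨min (p (e 1)) 3, by omega⟩
    ⟨min (p (e 2)) 3, by omega⟩
  simp only at this
  generalize min (p (e 0)) 3 = t0 at *
  generalize min (p (e 1)) 3 = t1 at *
  generalize min (p (e 2)) 3 = t2 at *
  norm_num
  linarith

theorem small3 {ι : Type*} (N : Finset ι) (hN : N.card = 3 + 1) (p : ι → ℕ) : 0 ≤ E2 3 N p := by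
  apply capped 3 N p 5 H3 hH3
  obtain ⟨e⟩ : Nonempty (Fin 4 ≃ N) := ⟨(Finset.equivFinOfCardEq hN).symm⟩
  have hs : ∀ f : ι → ℤ, ∑ i ∈ N, f i = ∑ k : Fin 4, f (e k) := by
    intro f
    rw [← Finset.sum_coe_sort, ← Equiv.sum_comp e]
  rw [hs, hs, hs, cc3]
  simp only [Fin.sum_univ_four]
  have := dec3 ⟨min (p (e 0)) 5, by omega⟩ ⟨min (p (e 1)) 5, by omega⟩
    ⟨min (p (e 2)) 5, by omega⟩ ⟨min (p (e 3)) 5, by omega⟩
  simp only at this
  generalize min (p (e 0)) 5 = t0 at *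
  generalize min (p (e 1)) 5 = t1 at *
  generalize min (p (e 2)) 5 = t2 at *
  generalize min (p (e 3)) 5 = t3 at *
  norm_num
  linarith

theorem small4 {ι : Type*} (N : Finset ι) (hN : N.card = 4 + 1) (p : ι → ℕ) : 0 ≤ E2 4 N p := by
  apply capped 4 N p 6 H4 hH4
  obtain ⟨e⟩ : Nonempty (Fin 5 ≃ N) := ⟨(Finset.equivFinOfCardEq hN).symm⟩
  have hs : ∀ f : ι → ℤ, ∑ i ∈ N, f i = ∑ k : Fin 5, f (e k) := by
    intro f
    rw [← Finset.sum_coe_sort, ← Equiv.sum_comp e]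
  rw [hs, hs, hs, cc4]
  simp only [Fin.sum_univ_five]
  have := dec4 ⟨min (p (e 0)) 6, by omega⟩ ⟨min (p (e 1)) 6, by omega⟩
    ⟨min (p (e 2)) 6, by omega⟩ ⟨min (p (e 3)) 6, by omega⟩ ⟨min (p (e 4)) 6, by omega⟩
  simp only at this
  generalize min (p (e 0)) 6 = t0 at *
  generalize min (p (e 1)) 6 = t1 at *
  generalize min (p (e 2)) 6 = t2 at *
  generalize min (p (e 3)) 6 = t3 at *
  generalize min (p (e 4)) 6 = t4 at *
  norm_num
  linarith

theorem cc_mono {x y : ℕ} (h : x ≤ y) : cc x ≤ cc y := by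
  unfold cc
  exact_mod_cast Nat.choose_le_choose 2 h

theorem cost_le {a : ℕ} (ha : 5 ≤ a) {K : ℤ} (h1 : (a : ℤ) ≤ K) (h2 : 3 * (a : ℤ) - 9 ≤ K)
    (h3 : 3 ≤ K) (h4 : ∀ y : ℤ, 6 ≤ y → 3 + y * max ((a : ℤ) - y) 0 ≤ K) (x : ℕ) :
    3 - g a x + cc a * ((x : ℤ) - min (x : ℤ) (cc a)) ≤ K := by
  have hc := two_cc a
  have ha' : (5 : ℤ) ≤ a := by exact_mod_cast ha
  have hca : (a : ℤ) ≤ cc a := by nlinarith
  rcases lt_trichotomy a x with h | h | h
  · -- `x > a`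
    unfold g tr
    rw [if_pos h, if_neg (by omega), if_neg (by omega), if_neg (by omega), if_neg (by omega)]
    have : (x : ℤ) - min (x : ℤ) (cc a) = max ((x : ℤ) - cc a) 0 := by omega
    rw [this]
    linarith
  · subst h
    unfold g
    rw [if_neg (lt_irrefl _), if_neg (lt_irrefl _), min_eq_left hca]
    linarith
  · have hx : (x : ℤ) < a := by exact_mod_cast h
    unfold g
    rw [if_neg (by omega), if_pos h, min_eq_left (by linarith)]
    unfold tr
    split_ifs with g1 g2 g3 g4 g5 g6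
    · linarith
    · linarith
    · linarith
    · linarith
    · omega
    · linarith
    · have : 6 ≤ cc x := by
        rw [← cc4]; exact cc_mono (by omega)
      have := h4 (cc x) this
      linarith

theorem local_nonneg {ι : Type*} (a : ℕ) (N : Finset ι) (hN : N.card = a + 1) (p : ι → ℕ) :
    0 ≤ E2 a N p := by
  rcases Nat.lt_or_ge a 6 with h | h
  · interval_cases a
    · exact small0 N hN p
    · exact small1 N hN p
    · exact small2 N hN p
    · exact small3 N hN p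
    · exact small4 N hN p
    · have c5 : cc 5 = 10 := rfl
      apply big 5 N hN p 6
      · apply cost_le (le_refl _) (by norm_num) (by norm_num) (by norm_num)
        intro y hy
        rw [max_eq_right (by push_cast; linarith)]
        norm_num
      · rw [c5]; norm_num
  · have ha' : (6 : ℤ) ≤ a := by exact_mod_cast h
    have hc := two_cc a
    obtain ⟨K, hK⟩ : ∃ K : ℤ, K = 3 + (a * a : ℤ) / 4 := ⟨_, rfl⟩
    have k1 : 4 * (K - 3) ≤ (a : ℤ) * a := by rw [hK]; omega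
    have k2 : ∀ z : ℤ, 4 * (z - 3) ≤ (a : ℤ) * a → z ≤ K := by
      intro z hz
      rw [hK]; omega
    apply big a N hN p K
    · apply cost_le (by omega)
      · apply k2; nlinarith [sq_nonneg ((a : ℤ) - 2)]
      · apply k2; nlinarith [sq_nonneg ((a : ℤ) - 6)]
      · apply k2; nlinarith
      · intro y hy
        apply k2
        rcases le_or_gt (a : ℤ) y with h' | h'
        · rw [max_eq_right (by linarith)]; nlinarith
        · rw [max_eq_left (by linarith)]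
          nlinarith [sq_nonneg ((a : ℤ) - 2 * y)]
    · obtain ⟨b, hb⟩ : ∃ b : ℤ, (a : ℤ) = 6 + b ∧ 0 ≤ b := ⟨a - 6, by ring, by linarith⟩
      obtain ⟨hb, hb0⟩ := hb
      have k3 : K * ((a : ℤ) + 1) * 4 ≤ (12 + (a : ℤ) * a) * ((a : ℤ) + 1) := by
        have : K * 4 ≤ 12 + (a : ℤ) * a := by linarith
        nlinarith
      have k4 : 4 * (3 * cc a * (cc a - 1) - 2 * cc a ^ 2 + 12) =
          ((a : ℤ) * (a - 1)) ^ 2 - 6 * ((a : ℤ) * (a - 1)) + 48 := by
        rw [← hc]; ring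
      have k5 : 2 * ((12 + (a : ℤ) * a) * ((a : ℤ) + 1)) ≤
          ((a : ℤ) * (a - 1)) ^ 2 - 6 * ((a : ℤ) * (a - 1)) + 48 := by
        rw [hb]
        have : 0 ≤ b * b := by positivity
        have : 0 ≤ b * b * b := by positivity
        have : 0 ≤ b * b * b * b := by positivity
        nlinarith
      linarith

end Pool.Agent.TreeProfile
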